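import Pool.Agent.MP_c1891a_nt.G43.Spec
import Pool.Agent.MP_c1891a_nt.H19.LV
import Pool.Agent.MP_c1891a_nt.H53.NormP

/-
Roots with a small nonzero integral value have a large height.
-/

namespace Pool.Agent.MP_c1891a_nt.G43

open Finset Polynomial Module H43

lemma frob2_sum {L K : Type} [Field L] [NumberField L] [Field K] [NumberField K] [Algebra L K]
    (F : (L →+* ℂ) → ℝ) :
    ∑ τ : K →+* ℂ, F (τ.comp (algebraMap L K)) = finrank L K * ∑ σ : L →+* ℂ, F σ := by
  classical
  rw [← sum_fiberwise univ (fun τ : K →+* ℂ => τ.comp (algebraMap L K)), mul_sum]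
  refine sum_congr rfl fun σ _ => ?_
  rw [sum_congr rfl (g := fun _ => F σ) fun τ hτ => by rw [(mem_filter.1 hτ).2], sum_const,
    nsmul_eq_mul]
  congr 2
  let := σ.toAlgebra
  rw [← AlgHom.card L K ℂ, ← Fintype.card_subtype]
  exact Fintype.card_congr
    { toFun := fun τ => ⟨τ.1, fun a => RingHom.congr_fun τ.2 a⟩
      invFun := fun τ => ⟨τ.toRingHom, RingHom.ext fun a => τ.commutes a⟩
      left_inv := fun _ => rfl
      right_inv := fun _ => rfl }

lemma frob2_val (V : ValuationSubring ℂ) {W : ℂ[X]} {D : ℕ} (hW : ∀ n, W.coeff n ∈ V)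
    (hD : W.natDegree ≤ D) (α : ℂ) : V.valuation (W.eval α) ≤ max 1 (V.valuation α) ^ D := by
  rw [eval_eq_sum_range]
  refine Valuation.map_sum_le _ fun i hi => ?_
  rw [map_mul, map_pow]
  refine (mul_le_of_le_one_left' ((V.valuation_le_one_iff _).2 (hW i))).trans ?_
  exact (pow_le_pow_left' (le_max_right _ _) _).trans
    (pow_le_pow_right' (le_max_left _ _) ((Nat.lt_succ_iff.1 (mem_range.1 hi)).trans hD))

theorem sFrob2 : SFrob2 := by
  classical
  intro L κ _ _ σ₀ f V W D θ s hf hfi hW h0 h1 hb hs hs'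
  obtain ⟨K, _, _, _, hsp⟩ : ∃ (K : Type) (_ : Field K) (_ : NumberField K) (_ : Algebra L K),
      (f.map (algebraMap L K)).Splits :=
    ⟨f.SplittingField, inferInstance, NumberField.of_module_finite L _, inferInstance,
      SplittingField.splits f⟩
  obtain ⟨τ₀, hτ₀⟩ : ∃ τ₀ : K →+* ℂ, τ₀.comp (algebraMap L K) = σ₀ := by
    let := σ₀.toAlgebra
    let e : K →ₐ[L] ℂ := IsAlgClosed.lift
    exact ⟨e.toRingHom, RingHom.ext fun a => e.commutes a⟩
  have hfK : f.map (algebraMap L K) ≠ 0 := Polynomial.map_ne_zero hf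
  have hR : (f.map σ₀).roots = (f.map (algebraMap L K)).roots.map τ₀ := by
    rw [← hsp.roots_map τ₀, Polynomial.map_map, hτ₀]
  let S : Multiset K := s.map (Function.invFun τ₀)
  have hS : S.map τ₀ = s := by
    rw [Multiset.map_map]
    refine (Multiset.map_congr rfl fun α hα => ?_).trans (Multiset.map_id s)
    obtain ⟨a, -, rfl⟩ := Multiset.mem_map.1 (hR ▸ Multiset.mem_of_le hs hα)
    exact Function.invFun_eq ⟨a, rfl⟩
  have hSR : S ≤ (f.map (algebraMap L K)).roots :=
    (Multiset.map_le_map_iff τ₀.injective).1 (by rw [hS, ← hR]; exact hs)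
  have hdvd : ∀ τ : K →+* ℂ, ∏ i : S.ToType, (X - C (τ i)) ∣ f.map (τ.comp (algebraMap L K)) := by
    intro τ
    have h2 := Polynomial.map_dvd τ ((Multiset.prod_X_sub_C_dvd_iff_le_roots hfK S).2 hSR)
    rw [Polynomial.map_map, Polynomial.map_multiset_prod, Multiset.map_map] at h2
    rw [prod_eq_multiset_prod, Multiset.map_univ S fun a => (X - C (τ a) : ℂ[X])]
    simpa using h2
  have hev : ∀ (τ : K →+* ℂ) (g : L[X]) (a : K),
      (g.map (τ.comp (algebraMap L K))).eval (τ a) = τ (aeval a g) := fun τ g a => by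
    rw [← Polynomial.map_map, eval_map, eval₂_at_apply, eval_map_algebraMap]
  have hk : ∀ i : S.ToType, ∃ k, aeval (i : K) (V k) = 0 ∧ aeval (i : K) (W k) ≠ 0 := by
    intro i
    obtain ⟨k, h2, h3⟩ := hs' (τ₀ i) (hS ▸ Multiset.mem_map_of_mem _ Multiset.coe_mem)
    rw [← hτ₀] at h2 h3
    rw [IsRoot.def, hev] at h2
    rw [hev] at h3
    exact ⟨k, τ₀.injective (h2.trans (map_zero _).symm), fun e => h3 (by rw [e, map_zero])⟩
  choose k hk1 hk2 using hk
  set y : K := algebraMap L K f.leadingCoeff ^ D * ∏ i : S.ToType, aeval (i : K) (W (k i)) with hy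
  have hτy : ∀ τ : K →+* ℂ, τ y = (f.map (τ.comp (algebraMap L K))).leadingCoeff ^ D *
      ∏ i : S.ToType, ((W (k i)).map (τ.comp (algebraMap L K))).eval (τ i) := fun τ => by
    simp only [hy, map_mul, map_pow, map_prod, hev, leadingCoeff_map, RingHom.comp_apply]
  have hy0 : y ≠ 0 := mul_ne_zero (pow_ne_zero _ ((_root_.map_ne_zero _).2
    (leadingCoeff_ne_zero.2 hf)))
    (prod_ne_zero_iff.2 fun i _ => hk2 i)
  have hint : IsIntegral ℤ y := by
    rw [← isIntegral_algHom_iff τ₀.toIntAlgHom τ₀.injective]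
    refine lv_int fun U hU => (U.valuation_le_one_iff _).1 ?_
    have hc : ∀ g : L[X], IntC g → ∀ n, (g.map (τ₀.comp (algebraMap L K))).coeff n ∈ U :=
      fun g hg n => by
        rw [coeff_map]
        exact hU _ ((hg n).map (τ₀.comp (algebraMap L K)).toIntAlgHom)
    have h2 := lv_val U (fun i : S.ToType => τ₀ i) univ _ (hc f hfi) (hdvd τ₀)
    change U.valuation (τ₀ y) ≤ 1
    rw [hτy, map_mul, map_pow, map_prod]
    refine (mul_le_mul' le_rfl (prod_le_prod' fun i _ => frob2_val U (hc _ (hW _).1)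
      (natDegree_map_le.trans (hW _).2) _)).trans ?_
    rw [prod_pow, ← mul_pow]
    exact pow_le_one' h2 _
  have hM : ∀ σ : L →+* ℂ, 0 < (f.map σ).mahlerMeasure := fun σ =>
    mahlerMeasure_pos_of_ne_zero (Polynomial.map_ne_zero hf)
  have h2 : 1 ≤ ∏ τ : K →+* ℂ,
      θ ^ s.card * (f.map (τ.comp (algebraMap L K))).mahlerMeasure ^ D := by
    refine ((sNormP K).1 _ hint hy0).trans (prod_le_prod (fun _ _ => norm_nonneg _) fun τ _ => ?_)
    have h3 := lv_mahler (fun i : S.ToType => τ i) univ (hdvd τ)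
    have h4 : ∏ i : S.ToType, ‖((W (k i)).map (τ.comp (algebraMap L K))).eval (τ i)‖ ≤
        ∏ i : S.ToType, θ * max 1 ‖τ i‖ ^ D :=
      prod_le_prod (fun _ _ => norm_nonneg _) fun i _ =>
        hb (k i) _ _ (by rw [IsRoot.def, hev, hk1, map_zero])
    rw [prod_mul_distrib, prod_const, card_univ, Multiset.card_coe, Multiset.card_map,
      prod_pow] at h4
    rw [hτy, norm_mul, norm_pow, norm_prod]
    refine (mul_le_mul_of_nonneg_left h4 (by positivity)).trans ?_
    rw [mul_left_comm, ← mul_pow]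
    have n1 : 0 ≤ ∏ i : S.ToType, max 1 ‖τ i‖ := prod_nonneg fun _ _ => by positivity
    gcongr
  have h3 := Real.log_nonneg h2
  rw [Real.log_prod fun σ _ => (mul_pos (pow_pos h0 _) (pow_pos (hM _) _)).ne'] at h3
  have h4 : ∀ σ : L →+* ℂ, Real.log (θ ^ s.card * (f.map σ).mahlerMeasure ^ D) =
      s.card * Real.log θ + D * (f.map σ).logMahlerMeasure := fun σ => by
    rw [Real.log_mul (pow_pos h0 _).ne' (pow_pos (hM σ) _).ne', Real.log_pow, Real.log_pow,
      logMahlerMeasure_eq_log_MahlerMeasure]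
  rw [frob2_sum (K := K) fun σ => Real.log (θ ^ s.card * (f.map σ).mahlerMeasure ^ D)] at h3
  have h5 : (0 : ℝ) < finrank L K := Nat.cast_pos.2 finrank_pos
  have h6 := nonneg_of_mul_nonneg_right h3 h5
  simp only [h4, sum_add_distrib, sum_const, card_univ, NumberField.Embeddings.card,
    nsmul_eq_mul, ← mul_sum] at h6
  rw [one_div, Real.log_inv]
  linarith

end Pool.Agent.MP_c1891a_nt.G43
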